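import Pool.Agent.X34.CY.Stm

set_option autoImplicit false

namespace Pool.Agent.X301.CY

open Finset Pool.Agent.X34.CY

theorem t_GRP : S_GRP := by
  intro G _ _ _ k v hv
  set g : ℕ := univ.gcd fun i => (v i).natAbs with hg
  have hg0 : 0 < g := by
    rw [Nat.pos_iff_ne_zero]
    intro h0
    apply hv
    rw [hg, Finset.gcd_eq_zero_iff] at h0
    funext i
    simpa using h0 i (mem_univ i)
  let φ : (Fin k → G) →+ G :=
    { toFun := fun z => ∑ i, v i • z i
      map_zero' := by simp
      map_add' := by intro x y; simp [smul_add, Finset.sum_add_distrib] }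
  have hφ : ∀ z, φ z = ∑ i, v i • z i := fun _ => rfl
  -- the integers `m` with `m G ⊆ range φ`
  let I : AddSubgroup ℤ :=
    { carrier := {m | ∀ x : G, m • x ∈ φ.range}
      zero_mem' := by intro x; simp [zero_mem]
      add_mem' := by
        intro a b ha hb x
        rw [add_smul]
        exact add_mem (ha x) (hb x)
      neg_mem' := by
        intro a ha x
        rw [neg_smul]
        exact neg_mem (ha x) }
  have hvI : ∀ i, v i ∈ I := by
    intro i x
    refine ⟨Pi.single i x, ?_⟩
    rw [hφ, Finset.sum_eq_single i]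
    · simp
    · intro j _ hj
      simp [Pi.single_eq_of_ne hj]
    · simp
  have hgI : (g : ℤ) ∈ I := by
    obtain ⟨a, ha⟩ := Int.subgroup_cyclic I
    have h1 : ∀ i, a ∣ v i := by
      intro i
      have := hvI i
      rw [ha, AddSubgroup.mem_closure_singleton] at this
      obtain ⟨m, hm⟩ := this
      exact ⟨m, by rw [← hm, smul_eq_mul, mul_comm]⟩
    have h2 : a.natAbs ∣ g := Finset.dvd_gcd fun i _ => Int.natAbs_dvd_natAbs.2 (h1 i)
    have h3 : a ∣ (g : ℤ) := Int.natAbs_dvd.1 (Int.natCast_dvd_natCast.2 h2)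
    obtain ⟨m, hm⟩ := h3
    rw [ha, AddSubgroup.mem_closure_singleton]
    exact ⟨m, by rw [hm, smul_eq_mul, mul_comm]⟩
  let ψ : G →+ G := zsmulAddGroupHom (g : ℤ)
  have hψ : ∀ x, ψ x = (g : ℤ) • x := fun _ => rfl
  have hle : ψ.range ≤ φ.range := by
    rintro _ ⟨x, rfl⟩
    exact hgI x
  have hcle : Nat.card ψ.range ≤ Nat.card φ.range := Nat.card_mono (Set.toFinite _) hle
  have hker : (univ.filter fun z : Fin k → G => ∑ i, v i • z i = 0).card = Nat.card φ.ker := by
    rw [Nat.card_eq_fintype_card, Fintype.card_subtype]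
    congr 1
    ext z
    rw [mem_filter, mem_filter]
    exact Iff.rfl
  have hmul : Nat.card φ.ker * Nat.card φ.range = Fintype.card G ^ k := by
    have h1 := AddSubgroup.card_mul_index φ.ker
    rw [AddSubgroup.index_ker] at h1
    rw [h1, Nat.card_eq_fintype_card]
    simp
  -- generators
  obtain ⟨S, hSc, hS⟩ : ∃ S : Finset G, S.card = dG G ∧ AddSubgroup.closure (S : Set G) = ⊤ := by
    have hne : {m : ℕ | ∃ S : Finset G, S.card = m ∧ AddSubgroup.closure (S : Set G) = ⊤}.Nonempty :=
      ⟨(univ : Finset G).card, univ, rfl, by simp⟩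
    exact Nat.sInf_mem hne
  have hcount : Fintype.card G ≤ g ^ dG G * Nat.card ψ.range := by
    have hsurj : Function.Surjective (fun p : (S → Fin g) × ψ.range => (∑ s : S, ((p.1 s : ℕ) : ℤ) • (s : G)) + (p.2 : G)) := by
      intro x
      have hx : x ∈ Submodule.span ℤ (S : Set G) := by
        have : x ∈ AddSubgroup.closure (S : Set G) := by rw [hS]; trivial
        rw [← Submodule.span_int_eq_addSubgroupClosure] at this
        exact this
      rw [Submodule.mem_span_finset] at hx
      obtain ⟨f, -, hf⟩ := hx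
      have hlt : ∀ s : S, (f s % g).toNat < g := by
        intro s
        have h1 := Int.emod_nonneg (f s) (b := (g : ℤ)) (by exact_mod_cast hg0.ne')
        have h2 := Int.emod_lt_of_pos (f s) (b := (g : ℤ)) (by exact_mod_cast hg0)
        omega
      refine ⟨(fun s => ⟨(f s % g).toNat, hlt s⟩, ⟨ψ (∑ s : S, (f s / g) • (s : G)), ⟨_, rfl⟩⟩), ?_⟩
      simp only [hψ]
      rw [Finset.smul_sum, ← Finset.sum_add_distrib, ← hf, ← Finset.sum_coe_sort S]
      refine Finset.sum_congr rfl fun s _ => ?_
      have h1 := Int.emod_nonneg (f s) (b := (g : ℤ)) (by exact_mod_cast hg0.ne')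
      rw [Int.toNat_of_nonneg h1, smul_smul, ← add_smul, Int.emod_add_mul_ediv]
    have h2 := Nat.card_le_card_of_surjective _ hsurj
    rw [Nat.card_prod, Nat.card_eq_fintype_card, Nat.card_eq_fintype_card (α := S → Fin g)] at h2
    simpa [hSc] using h2
  have hrpos : 0 < Nat.card φ.range := Nat.card_pos
  rw [hker]
  have hkle : Nat.card φ.ker ≤ Fintype.card G ^ k := by
    rw [← hmul]
    exact Nat.le_mul_of_pos_right _ hrpos
  rw [Nat.min_def]
  split_ifs with h
  · calc Nat.card φ.ker * Fintype.card G ≤ Nat.card φ.ker * (g ^ dG G * Nat.card ψ.range) :=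
          Nat.mul_le_mul_left _ hcount
      _ ≤ Nat.card φ.ker * (g ^ dG G * Nat.card φ.range) :=
          Nat.mul_le_mul_left _ (Nat.mul_le_mul_left _ hcle)
      _ = g ^ dG G * (Nat.card φ.ker * Nat.card φ.range) := by ring
      _ = g ^ dG G * Fintype.card G ^ k := by rw [hmul]
  · rw [mul_comm]
    exact Nat.mul_le_mul_left _ hkle

end Pool.Agent.X301.CY
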